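import Mathlib
import Pool.Agent.TH890.AS.R5

/-!
# Grids of progressions and intervals

Let `P0` be a set of primes. A small family of sets of members of `P0` (progressions in grid intervals)
controls all subadditive functionals on all progressions in all intervals.
-/

set_option autoImplicit false

namespace Pool.Agent.Q241.LN

open Finset
open Pool.Agent.TH890.AS (ev_rpow)

open Classical in
/-- the `p` in `(u, v]` with the property `P0` which are congruent to `a` modulo `d` -/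
noncomputable def PS (P0 : ℕ → Prop) (d a u v : ℕ) : Finset ℕ :=
  (Ioc u v).filter (fun p => P0 p ∧ p ≡ a [MOD d])

lemma card_PS {P0 : ℕ → Prop} {d a u v : ℕ} (hd : 1 ≤ d) (huv : u ≤ v) :
    (#(PS P0 d a u v) : ℝ) ≤ ((v : ℝ) - u) / d + 1 := by
  classical
  have hd0 : (0 : ℚ) < d := by exact_mod_cast hd
  have h1 : #(PS P0 d a u v) ≤ #((Ioc u v).filter (fun x => x ≡ a [MOD d])) := by
    apply card_le_card
    intro p hp
    unfold PS at hp
    rw [mem_filter] at hp ⊢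
    exact ⟨hp.1, hp.2.2⟩
  have h2 : (#((Ioc u v).filter (fun x => x ≡ a [MOD d])) : ℤ) =
      max (⌊((v : ℚ) - a) / (d : ℚ)⌋ - ⌊((u : ℚ) - a) / (d : ℚ)⌋) 0 :=
    Nat.Ioc_filter_modEq_card u v (by omega) a
  have h3 : ((max (⌊((v : ℚ) - a) / (d : ℚ)⌋ - ⌊((u : ℚ) - a) / (d : ℚ)⌋) 0 : ℤ) : ℚ) ≤
      ((v : ℚ) - u) / d + 1 := by
    have h4 : (0 : ℚ) ≤ ((v : ℚ) - u) / d := by
      apply div_nonneg _ hd0.le
      have : (u : ℚ) ≤ v := by exact_mod_cast huv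
      linarith
    push_cast
    apply max_le
    · have a1 := Int.floor_le (((v : ℚ) - a) / (d : ℚ))
      have a2 := Int.lt_floor_add_one (((u : ℚ) - a) / (d : ℚ))
      have e : ((v : ℚ) - u) / d = ((v : ℚ) - a) / (d : ℚ) - ((u : ℚ) - a) / (d : ℚ) := by ring
      rw [e]
      linarith
    · linarith
  have h5 : ((#((Ioc u v).filter (fun x => x ≡ a [MOD d])) : ℕ) : ℚ) ≤ ((v : ℚ) - u) / d + 1 := by
    refine le_trans (le_of_eq ?_) h3
    rw [← h2]
    push_cast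
    rfl
  have h6 : ((#((Ioc u v).filter (fun x => x ≡ a [MOD d])) : ℕ) : ℝ) ≤ ((v : ℝ) - u) / d + 1 := by
    have : (((#((Ioc u v).filter (fun x => x ≡ a [MOD d])) : ℕ) : ℚ) : ℝ) ≤
        ((((v : ℚ) - u) / d + 1 : ℚ) : ℝ) := by exact_mod_cast h5
    push_cast at this
    exact this
  exact le_trans (by exact_mod_cast h1) h6

lemma PS_mod (P0 : ℕ → Prop) (d a u v : ℕ) : PS P0 d a u v = PS P0 d (a % d) u v := by
  classical
  unfold PS
  apply filter_congr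
  intro p _
  have : p ≡ a [MOD d] ↔ p ≡ a % d [MOD d] := by
    unfold Nat.ModEq
    rw [Nat.mod_mod]
  rw [this]

/-- the family of the sets of primes in progressions and grid intervals -/
noncomputable def Fam (P0 : ℕ → Prop) (X : ℕ) (σ' : ℝ) (D : ℕ) (G : ℕ → ℕ) : Finset (Finset ℕ) :=
  open Classical in
  ((Icc 1 D).biUnion fun d => ((range d) ×ˢ (range (X / G d + 1)) ×ˢ (range (X / G d + 1))).image
    (fun x => PS P0 d x.1 (x.2.1 * G d) (x.2.2 * G d))).filter (fun S => (X : ℝ) ^ σ' ≤ #S)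

lemma mem_Fam {P0 : ℕ → Prop} {X : ℕ} {σ' : ℝ} {D : ℕ} {G : ℕ → ℕ} {S : Finset ℕ}
    (h : S ∈ Fam P0 X σ' D G) : (∀ p ∈ S, P0 p ∧ p ≤ X) ∧ (X : ℝ) ^ σ' ≤ #S := by
  classical
  unfold Fam at h
  rw [mem_filter, mem_biUnion] at h
  obtain ⟨⟨d, hd, h1⟩, h2⟩ := h
  refine ⟨?_, h2⟩
  rw [mem_image] at h1
  obtain ⟨x, hx, rfl⟩ := h1
  rw [mem_product, mem_product, mem_range, mem_range, mem_range] at hx
  intro p hp
  unfold PS at hp
  rw [mem_filter, mem_Ioc] at hp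
  refine ⟨hp.2.1, hp.1.2.trans ?_⟩
  calc x.2.2 * G d ≤ X / G d * G d := Nat.mul_le_mul_right _ (by omega)
    _ ≤ X := Nat.div_mul_le_self _ _

lemma card_Fam_le (P0 : ℕ → Prop) (X : ℕ) (σ' : ℝ) (D : ℕ) (G : ℕ → ℕ) :
    #(Fam P0 X σ' D G) ≤ ∑ d ∈ Icc 1 D, d * (X / G d + 1) ^ 2 := by
  classical
  unfold Fam
  refine (card_filter_le _ _).trans (card_biUnion_le.trans (sum_le_sum fun d _ => ?_))
  refine card_image_le.trans (le_of_eq ?_)
  rw [card_product, card_product, card_range, card_range]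
  ring

lemma sum_bound {X D : ℕ} {G : ℕ → ℕ} {T W : ℝ} (hT : 0 < T) (hW : 0 < W) (hTW : T * W = X)
    (hD : (D : ℝ) ≤ T) (hG : ∀ d : ℕ, 1 ≤ d → (d : ℝ) * W ≤ G d) :
    ((∑ d ∈ Icc 1 D, d * (X / G d + 1) ^ 2 : ℕ) : ℝ) ≤ 4 * T ^ 2 * (1 + Real.log D) := by
  have h1 : ∀ d ∈ Icc 1 D, ((d * (X / G d + 1) ^ 2 : ℕ) : ℝ) ≤ 4 * T ^ 2 * (d : ℝ)⁻¹ := by
    intro d hd
    rw [mem_Icc] at hd
    have hd0 : (0 : ℝ) < d := by exact_mod_cast hd.1
    have hdT : (d : ℝ) ≤ T := le_trans (by exact_mod_cast hd.2) hD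
    have hdW : 0 < (d : ℝ) * W := by positivity
    have hG0 : (0 : ℝ) < G d := lt_of_lt_of_le hdW (hG d hd.1)
    have h2 : ((X / G d : ℕ) : ℝ) ≤ T / d := by
      refine Nat.cast_div_le.trans ?_
      rw [div_le_div_iff₀ hG0 hd0, ← hTW]
      have := hG d hd.1
      nlinarith
    have h3 : (1 : ℝ) ≤ T / d := by rw [le_div_iff₀ hd0]; linarith
    push_cast
    have h4 : (((X / G d : ℕ) : ℝ) + 1) ^ 2 ≤ (2 * (T / d)) ^ 2 :=
      pow_le_pow_left₀ (by positivity) (by linarith) 2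
    calc (d : ℝ) * (((X / G d : ℕ) : ℝ) + 1) ^ 2 ≤ d * (2 * (T / d)) ^ 2 :=
          mul_le_mul_of_nonneg_left h4 hd0.le
      _ = 4 * T ^ 2 * (d : ℝ)⁻¹ := by
          field_simp
          ring
  have h5 : (∑ d ∈ Icc 1 D, (d : ℝ)⁻¹) ≤ 1 + Real.log D := by
    have h6 := harmonic_le_one_add_log D
    rw [harmonic_eq_sum_Icc] at h6
    push_cast at h6
    exact h6
  push_cast
  push_cast at h1
  refine (sum_le_sum h1).trans ?_
  rw [← mul_sum]
  exact mul_le_mul_of_nonneg_left h5 (by positivity)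

/-- a functional which is at most the cardinality and changes by at most the cardinality -/
structure Sub (E : Finset ℕ → ℝ) : Prop where
  le_card : ∀ S, E S ≤ #S
  sub : ∀ S T : Finset ℕ, T ⊆ S → E S ≤ E T + #(S \ T)

/-- approximation by grid intervals -/
lemma approx {P0 : ℕ → Prop} {E : Finset ℕ → ℝ} (hE : Sub E) {d a u v X G : ℕ} {W K : ℝ} (hd : 1 ≤ d)
    (huv : u ≤ v) (hvX : v ≤ X)
    (hG1 : 1 ≤ G) (hGd : (G : ℝ) ≤ d * W + 1) (hW : 1 ≤ W) (hc : 0 < K) (hK1 : K ≤ 1)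
    (hgood : ∀ g h : ℕ, g ≤ X / G → h ≤ X / G → W ≤ #(PS P0 d (a % d) (g * G) (h * G)) →
      E (PS P0 d (a % d) (g * G) (h * G)) ≤ #(PS P0 d (a % d) (g * G) (h * G)) * K) :
    E (PS P0 d a u v) ≤ ((v : ℝ) - u) / d * K + 8 * W := by
  classical
  have hd0 : (0 : ℝ) < d := by exact_mod_cast hd
  have hG0 : 0 < G := hG1
  rw [PS_mod]
  set a' := a % d with ha'
  set g := (u + G - 1) / G with hg
  set h := v / G with hh
  have hgu : u ≤ g * G := by
    have h1 := Nat.lt_div_mul_add hG0 (a := u + G - 1)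
    rw [← hg] at h1
    omega
  have hgu2 : g * G ≤ u + G := by
    have h1 := Nat.div_mul_le_self (u + G - 1) G
    rw [← hg] at h1
    omega
  have hhv : h * G ≤ v := Nat.div_mul_le_self v G
  have hhv2 : v ≤ h * G + G := (Nat.lt_div_mul_add hG0 (a := v)).le
  have hsub : PS P0 d a' (g * G) (h * G) ⊆ PS P0 d a' u v := by
    intro p hp
    unfold PS at hp ⊢
    rw [mem_filter, mem_Ioc] at hp ⊢
    exact ⟨⟨by omega, by omega⟩, hp.2⟩
  have hdiff : PS P0 d a' u v \ PS P0 d a' (g * G) (h * G) ⊆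
      PS P0 d a' u (g * G) ∪ PS P0 d a' (h * G) v := by
    intro p hp
    rw [mem_sdiff] at hp
    unfold PS at hp ⊢
    rw [mem_union, mem_filter, mem_filter, mem_Ioc, mem_Ioc]
    rw [mem_filter, mem_filter, mem_Ioc, mem_Ioc] at hp
    by_cases h1 : p ≤ g * G
    · exact Or.inl ⟨⟨hp.1.1.1, h1⟩, hp.1.2⟩
    · by_cases h2 : p ≤ h * G
      · exact absurd ⟨⟨by omega, h2⟩, hp.1.2⟩ hp.2
      · exact Or.inr ⟨⟨by omega, hp.1.1.2⟩, hp.1.2⟩
  have hGW : (G : ℝ) / d ≤ W + 1 := by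
    rw [div_le_iff₀ hd0]
    have : (1 : ℝ) ≤ d := by exact_mod_cast hd
    nlinarith
  have c1 : (#(PS P0 d a' u (g * G)) : ℝ) ≤ G / d + 1 := by
    refine (card_PS hd hgu).trans ?_
    have : ((g * G : ℕ) : ℝ) - u ≤ G := by
      have : ((g * G : ℕ) : ℝ) ≤ ((u + G : ℕ) : ℝ) := by exact_mod_cast hgu2
      push_cast at this ⊢
      linarith
    have h1 : (((g * G : ℕ) : ℝ) - u) / d ≤ G / d := div_le_div_of_nonneg_right this hd0.le
    linarith
  have c2 : (#(PS P0 d a' (h * G) v) : ℝ) ≤ G / d + 1 := by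
    refine (card_PS hd hhv).trans ?_
    have : (v : ℝ) - ((h * G : ℕ) : ℝ) ≤ G := by
      have : (v : ℝ) ≤ ((h * G + G : ℕ) : ℝ) := by exact_mod_cast hhv2
      push_cast at this ⊢
      linarith
    have h1 : ((v : ℝ) - ((h * G : ℕ) : ℝ)) / d ≤ G / d := div_le_div_of_nonneg_right this hd0.le
    linarith
  have c3 : (#(PS P0 d a' u v \ PS P0 d a' (g * G) (h * G)) : ℝ) ≤ 2 * (G / d + 1) := by
    have h1 := (card_le_card hdiff).trans (card_union_le _ _)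
    have h2 : (#(PS P0 d a' u v \ PS P0 d a' (g * G) (h * G)) : ℝ) ≤
        #(PS P0 d a' u (g * G)) + #(PS P0 d a' (h * G) v) := by exact_mod_cast h1
    linarith
  have hvu : 0 ≤ ((v : ℝ) - u) / d := by
    apply div_nonneg _ hd0.le
    have : (u : ℝ) ≤ v := by exact_mod_cast huv
    linarith
  have c4 : E (PS P0 d a' (g * G) (h * G)) ≤ ((v : ℝ) - u) / d * K + 1 + W := by
    by_cases hgh : g ≤ h
    · by_cases hS : W ≤ #(PS P0 d a' (g * G) (h * G))
      · have hhX : h ≤ X / G := Nat.div_le_div_right hvX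
        refine (hgood g h (hgh.trans hhX) hhX hS).trans ?_
        have h1 : (#(PS P0 d a' (g * G) (h * G)) : ℝ) ≤ ((v : ℝ) - u) / d + 1 :=
          le_trans (by exact_mod_cast card_le_card hsub) (card_PS hd huv)
        have h2 := mul_le_mul_of_nonneg_right h1 hc.le
        nlinarith
      · refine (hE.le_card _).trans ?_
        have h3 : 0 ≤ ((v : ℝ) - u) / d * K := by positivity
        linarith [not_le.1 hS]
    · have h4 : PS P0 d a' (g * G) (h * G) = ∅ := by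
        unfold PS
        rw [Ioc_eq_empty_of_le (Nat.mul_le_mul_right _ (by omega)), filter_empty]
      refine (hE.le_card _).trans ?_
      rw [h4, card_empty]
      have h3 : 0 ≤ ((v : ℝ) - u) / d * K := by positivity
      push_cast
      linarith
  have c5 := hE.sub _ _ hsub
  linarith

/-- **The grid.** For `0 < c₁ ≤ σ / 8`, `σ ≤ 1`, `0 < c₂` and `c = min c₂ (c₁ / 2)`: for all large `X`
and every `P0` there is a family of at most `X ^ (2 (1 - σ) + 3 c₁)` sets of at least `X ^ (σ - c₁)`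
elements of `P0` up to `X` which controls all functionals. -/
theorem grid (σ c₁ c₂ : ℝ) (hσ1 : σ ≤ 1) (hc₁0 : 0 < c₁) (hc₁σ : c₁ ≤ σ / 8) (hc₂ : 0 < c₂) :
    ∃ X₀ : ℕ, ∀ X : ℕ, X₀ ≤ X → ∀ P0 : ℕ → Prop, ∃ 𝓕 : Finset (Finset ℕ),
      (#𝓕 : ℝ) ≤ (X : ℝ) ^ (2 * (1 - σ) + 3 * c₁) ∧
      (∀ S ∈ 𝓕, (∀ p ∈ S, P0 p ∧ p ≤ X) ∧ (X : ℝ) ^ (σ - c₁) ≤ #S) ∧
      ∀ E : Finset ℕ → ℝ, Sub E → (∀ S ∈ 𝓕, E S ≤ #S * (X : ℝ) ^ (-c₂)) →
        ∀ d a u v : ℕ, 1 ≤ d → u ≤ v → v ≤ X →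
          E (PS P0 d a u v) ≤ (X : ℝ) ^ (-(min c₂ (c₁ / 2))) * (((v : ℝ) - u) / d + (X : ℝ) ^ σ) := by
  classical
  obtain ⟨X₂, hX₂⟩ := ev_rpow (4 * (1 + 2 / c₁)) (c₁ / 2) (by positivity)
  obtain ⟨X₃, hX₃⟩ := ev_rpow 8 (c₁ / 2) (by positivity)
  set c := min c₂ (c₁ / 2) with hcd
  have hc0 : 0 < c := lt_min hc₂ (by positivity)
  have hcc2 : c ≤ c₂ := min_le_left _ _
  have hcc1 : c ≤ c₁ / 2 := min_le_right _ _
  have hσ0 : 0 < σ := by linarith
  refine ⟨max X₂ (max X₃ 1), fun X hX P0 => ?_⟩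
  have a2 := hX₂ X ((le_max_left _ _).trans hX)
  have a3 := hX₃ X ((le_max_left _ _).trans ((le_max_right _ _).trans hX))
  have hXn : 1 ≤ X := (le_max_right _ _).trans ((le_max_right _ _).trans hX)
  have hX1 : (1 : ℝ) ≤ X := by exact_mod_cast hXn
  have hX0 : (0 : ℝ) < X := by linarith
  set T : ℝ := (X : ℝ) ^ (1 - σ + c₁) with hT
  set W : ℝ := (X : ℝ) ^ (σ - c₁) with hW
  have hT0 : 0 < T := by positivity
  have hW0 : 0 < W := by positivity
  have hTW : T * W = X := by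
    rw [hT, hW, ← Real.rpow_add hX0]
    ring_nf
    rw [Real.rpow_one]
  have hW1 : 1 ≤ W := Real.one_le_rpow hX1 (by linarith)
  set D := ⌊T⌋₊ with hD
  have hDT : (D : ℝ) ≤ T := Nat.floor_le hT0.le
  set G : ℕ → ℕ := fun d => ⌈(d : ℝ) * W⌉₊ with hG
  have hGl : ∀ d : ℕ, 1 ≤ d → (d : ℝ) * W ≤ G d := fun d _ => Nat.le_ceil _
  have hGu : ∀ d : ℕ, 1 ≤ d → (G d : ℝ) ≤ d * W + 1 := fun d _ =>
    (Nat.ceil_lt_add_one (by positivity)).le
  have hG1 : ∀ d : ℕ, 1 ≤ d → 1 ≤ G d := by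
    intro d hd
    apply Nat.one_le_iff_ne_zero.2
    intro h0
    have h1 := hGl d hd
    rw [h0] at h1
    have h2 : (0 : ℝ) < d := by exact_mod_cast hd
    have : 0 < (d : ℝ) * W := by positivity
    push_cast at h1
    linarith
  have hcardF : (#(Fam P0 X (σ - c₁) D G) : ℝ) ≤ (X : ℝ) ^ (2 * (1 - σ) + 3 * c₁) := by
    have h1 : (#(Fam P0 X (σ - c₁) D G) : ℝ) ≤ 4 * T ^ 2 * (1 + Real.log D) :=
      le_trans (by exact_mod_cast card_Fam_le P0 X (σ - c₁) D G) (sum_bound hT0 hW0 hTW hDT hGl)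
    have hlog : 1 + Real.log D ≤ (1 + 2 / c₁) * (X : ℝ) ^ (c₁ / 2) := by
      have h2 : Real.log D ≤ Real.log X := by
        rcases Nat.eq_zero_or_pos D with h0 | h0
        · rw [h0]
          simp only [Nat.cast_zero, Real.log_zero]
          exact Real.log_nonneg hX1
        · apply Real.log_le_log (by exact_mod_cast h0)
          refine hDT.trans ?_
          calc T ≤ T * W := le_mul_of_one_le_right hT0.le hW1
            _ = X := hTW
      have h3 := Real.log_le_rpow_div hX0.le (show 0 < c₁ / 2 by positivity)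
      have h4 : 1 ≤ (X : ℝ) ^ (c₁ / 2) := Real.one_le_rpow hX1 (by positivity)
      have h5 : (X : ℝ) ^ (c₁ / 2) / (c₁ / 2) = 2 / c₁ * (X : ℝ) ^ (c₁ / 2) := by
        field_simp
      rw [h5] at h3
      nlinarith
    have hT2 : T ^ 2 = (X : ℝ) ^ (2 * (1 - σ + c₁)) := by
      rw [hT, ← Real.rpow_natCast, ← Real.rpow_mul hX0.le]
      congr 1
      push_cast
      ring
    calc (#(Fam P0 X (σ - c₁) D G) : ℝ) ≤ 4 * T ^ 2 * (1 + Real.log D) := h1
      _ ≤ 4 * T ^ 2 * ((1 + 2 / c₁) * (X : ℝ) ^ (c₁ / 2)) :=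
          mul_le_mul_of_nonneg_left hlog (by positivity)
      _ = (4 * (1 + 2 / c₁)) * (X : ℝ) ^ (c₁ / 2) * T ^ 2 := by ring
      _ ≤ (X : ℝ) ^ (c₁ / 2) * (X : ℝ) ^ (c₁ / 2) * T ^ 2 := by
          apply mul_le_mul_of_nonneg_right _ (by positivity)
          exact mul_le_mul_of_nonneg_right a2 (by positivity)
      _ = (X : ℝ) ^ (2 * (1 - σ) + 3 * c₁) := by
          rw [hT2, ← Real.rpow_add hX0, ← Real.rpow_add hX0]
          congr 1
          ring
  refine ⟨Fam P0 X (σ - c₁) D G, hcardF, fun S hS => mem_Fam hS, fun E hE hgood d a u v hd huv hvX => ?_⟩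
  have hK0 : 0 < (X : ℝ) ^ (-c₂) := by positivity
  have hK1 : (X : ℝ) ^ (-c₂) ≤ 1 := Real.rpow_le_one_of_one_le_of_nonpos hX1 (by linarith)
  have hKc : (X : ℝ) ^ (-c₂) ≤ (X : ℝ) ^ (-c) :=
    Real.rpow_le_rpow_of_exponent_le hX1 (by linarith)
  have h8W : 8 * W ≤ (X : ℝ) ^ (-c) * (X : ℝ) ^ σ := by
    calc 8 * W ≤ (X : ℝ) ^ (c₁ / 2) * W := mul_le_mul_of_nonneg_right a3 hW0.le
      _ = (X : ℝ) ^ (c₁ / 2 + (σ - c₁)) := by rw [hW, ← Real.rpow_add hX0]
      _ ≤ (X : ℝ) ^ (-c + σ) := Real.rpow_le_rpow_of_exponent_le hX1 (by linarith)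
      _ = (X : ℝ) ^ (-c) * (X : ℝ) ^ σ := by rw [Real.rpow_add hX0]
  have hd0 : (0 : ℝ) < d := by exact_mod_cast hd
  have hvu : 0 ≤ ((v : ℝ) - u) / d := by
    apply div_nonneg _ hd0.le
    have : (u : ℝ) ≤ v := by exact_mod_cast huv
    linarith
  have hle : E (PS P0 d a u v) ≤ ((v : ℝ) - u) / d * (X : ℝ) ^ (-c₂) + 8 * W := by
    by_cases hdD : d ≤ D
    · refine approx hE hd huv hvX (hG1 d hd) (hGu d hd) hW1 hK0 hK1 ?_
      intro g h hg hh hS
      apply hgood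
      unfold Fam
      rw [mem_filter, mem_biUnion]
      refine ⟨⟨d, mem_Icc.2 ⟨hd, hdD⟩, ?_⟩, hS⟩
      rw [mem_image]
      refine ⟨(a % d, g, h), ?_, rfl⟩
      rw [mem_product, mem_product, mem_range, mem_range, mem_range]
      exact ⟨Nat.mod_lt _ hd, Nat.lt_succ_of_le hg, Nat.lt_succ_of_le hh⟩
    · have hTd : T < d := by
        have h1 : T < (⌊T⌋₊ : ℝ) + 1 := Nat.lt_floor_add_one T
        have h2 : ((D + 1 : ℕ) : ℝ) ≤ d := by exact_mod_cast (by omega : D + 1 ≤ d)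
        push_cast at h2
        rw [← hD] at h1
        linarith
      have h3 : ((v : ℝ) - u) / d ≤ W := by
        rw [div_le_iff₀ hd0]
        have h4 : (v : ℝ) ≤ X := by exact_mod_cast hvX
        have h5 : (0 : ℝ) ≤ u := Nat.cast_nonneg _
        have h6 : T * W ≤ d * W := mul_le_mul_of_nonneg_right hTd.le hW0.le
        rw [hTW] at h6
        linarith
      refine (hE.le_card _).trans ((card_PS hd huv).trans ?_)
      have h7 : 0 ≤ ((v : ℝ) - u) / d * (X : ℝ) ^ (-c₂) := by positivity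
      linarith
  have h9 : ((v : ℝ) - u) / d * (X : ℝ) ^ (-c₂) ≤ ((v : ℝ) - u) / d * (X : ℝ) ^ (-c) :=
    mul_le_mul_of_nonneg_left hKc hvu
  nlinarith

end Pool.Agent.Q241.LN
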